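import Mathlib

/-!
# Maximum degree of trees with given neighbor-locating chromatic number
-/

namespace Pool.Agent.Results.MP_16ddc9_co.TreeMaxDegree

open Finset

/-- `c` is a neighbor-locating `k`-colouring of `G`: a partition of the vertices into `k`
nonempty classes (`c` is onto), proper, and two distinct vertices with the same colour see
different sets of colours in their neighbourhoods. -/
def IsNLColouring {V : Type*} (G : SimpleGraph V) {k : ℕ} (c : V → Fin k) : Prop :=
  Function.Surjective c ∧ (∀ u v, G.Adj u v → c u ≠ c v) ∧
    ∀ u v, u ≠ v → c u = c v → c '' G.neighborSet u ≠ c '' G.neighborSet v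

/-- The neighbor-locating chromatic number. -/
noncomputable def nlChromaticNumber {V : Type*} (G : SimpleGraph V) : ℕ :=
  sInf {k : ℕ | ∃ c : V → Fin k, IsNLColouring G c}

lemma card_pairs {k : ℕ} (γ : Fin k) :
    ((univ.erase γ).sigma (fun j : Fin k => (univ.erase j : Finset (Fin k)))).card
      = (k - 1) ^ 2 := by
  rw [Finset.card_sigma]
  have : ∀ j ∈ univ.erase γ, (univ.erase j : Finset (Fin k)).card = k - 1 := by
    intro j _
    rw [Finset.card_erase_of_mem (mem_univ j), Finset.card_univ, Fintype.card_fin]
  rw [Finset.sum_congr rfl this, Finset.sum_const, Finset.card_erase_of_mem (mem_univ γ),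
    Finset.card_univ, Fintype.card_fin, smul_eq_mul, sq]

theorem main {V : Type*} [Fintype V] (T : SimpleGraph V) [DecidableRel T.Adj] (hT : T.IsTree)
    {k : ℕ} (c : V → Fin k) (hc : IsNLColouring T c) (v : V) (hv : 2 ≤ T.degree v) :
    T.degree v ≤ (k - 1) ^ 2 := by
  classical
  obtain ⟨-, hproper, hloc⟩ := hc
  set γ := c v with hγ
  let S : V → Finset (Fin k) := fun u => (T.neighborFinset u).image c
  have hSmem : ∀ u i, i ∈ S u ↔ ∃ w, T.Adj u w ∧ c w = i := by
    intro u i
    simp [S]
  have hinj : ∀ u w, c u = c w → S u = S w → u = w := by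
    intro u w h1 h2
    by_contra hne
    refine hloc u w hne h1 ?_
    ext i
    have := congrArg (fun s => i ∈ s) h2
    simp only [hSmem] at this
    simpa [Set.mem_image] using this
  have hnotmem : ∀ u, c u ∉ S u := by
    intro u h
    obtain ⟨w, hw, hcw⟩ := (hSmem u _).1 h
    exact hproper u w hw hcw.symm
  have hScard : ∀ u, (S u).card ≤ T.degree u := by
    intro u
    exact Finset.card_image_le
  have hinjOn : ∀ A : Finset V, Set.InjOn (fun u => (c u, S u)) A := by
    intro A u _ w _ h
    simp only [Prod.mk.injEq] at h
    exact hinj u w h.1 h.2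
  -- every vertex has degree at least one
  have hdeg : ∀ u, 1 ≤ T.degree u := by
    intro u
    by_contra hcon
    push Not at hcon
    have h0 : T.degree u = 0 := by omega
    have huv : u ≠ v := by
      rintro rfl
      omega
    obtain ⟨p⟩ := hT.connected.preconnected u v
    cases p with
    | nil => exact huv rfl
    | cons h _ =>
      have : 0 < T.degree u := (T.degree_pos_iff_exists_adj u).2 ⟨_, h⟩
      omega
  have hnb : ∀ u, ∃ w, T.Adj u w := fun u => (T.degree_pos_iff_exists_adj u).1 (hdeg u)
  choose nb hnb using hnb
  have hleafN : ∀ u, T.degree u = 1 → ∀ w, T.Adj u w → w = nb u := by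
    intro u hu w hw
    have h1 : (T.neighborFinset u).card = 1 := hu
    obtain ⟨x, hx⟩ := Finset.card_eq_one.1 h1
    have hw' : w ∈ T.neighborFinset u := by simpa using hw
    have hn' : nb u ∈ T.neighborFinset u := by simpa using hnb u
    rw [hx, Finset.mem_singleton] at hw' hn'
    rw [hw', hn']
  have hleafS : ∀ u, T.degree u = 1 → S u = {c (nb u)} := by
    intro u hu
    ext i
    rw [hSmem, Finset.mem_singleton]
    constructor
    · rintro ⟨w, hw, rfl⟩
      rw [hleafN u hu w hw]
    · rintro rfl
      exact ⟨nb u, hnb u, rfl⟩
  -- two adjacent leaves are impossible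
  have hadjleaf : ∀ u w, T.Adj u w → T.degree u = 1 → T.degree w ≠ 1 := by
    intro u w huw hu hw
    have key : ∀ x, T.Reachable u x → x = u ∨ x = w := by
      intro x hx
      obtain ⟨p⟩ := hx
      have : ∀ (a x : V) (p : T.Walk a x), (a = u ∨ a = w) → (x = u ∨ x = w) := by
        intro a x p
        induction p with
        | nil => exact id
        | cons h _ ih =>
          intro ha
          apply ih
          rcases ha with rfl | rfl
          · right
            rw [hleafN _ hu _ h, hleafN _ hu _ huw]
          · left
            rw [hleafN _ hw _ h, hleafN _ hw _ huw.symm]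
      exact this u x p (Or.inl rfl)
    rcases key v (hT.connected.preconnected u v) with h | h
    · rw [h] at hv; omega
    · rw [h] at hv; omega
  -- the relevant sets
  let N := T.neighborFinset v
  let T3 := N.filter (fun u => 3 ≤ (S u).card)
  let L := univ.filter (fun u => T.degree u = 1)
  let Lg := L.filter (fun u => c u = γ)
  let Lo := L.filter (fun u => c u ≠ γ)
  let W := univ.filter (fun w => ∃ l, T.Adj w l ∧ T.degree l = 1 ∧ c l = γ)
  let WC := W.filter (fun w => T.degree w = 2 ∧ w ∉ N)
  let WD := W.filter (fun w => T.degree w = 2 ∧ w ∈ N)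
  let W3 := W.filter (fun w => 3 ≤ T.degree w)
  let A1 := univ.filter (fun u => c u ≠ γ ∧ γ ∈ S u ∧ (S u).card ≤ 2)
  let A2 := univ.filter (fun u => c u ≠ γ ∧ (S u).card = 1)
  have hmemN : ∀ u, u ∈ N ↔ T.Adj v u := by
    intro u; simp [N]
  -- bounds for `A1` and `A2`
  have hA1 : A1.card ≤ (k - 1) ^ 2 := by
    rw [← card_pairs γ, ← Finset.card_image_of_injOn (hinjOn A1)]
    refine le_trans (Finset.card_le_card ?_) (Finset.card_image_le
      (f := fun x : (_ : Fin k) × Fin k => (x.1, ({γ, x.2} : Finset (Fin k)))))
    intro x hx
    rw [Finset.mem_image] at hx ⊢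
    obtain ⟨u, hu, rfl⟩ := hx
    simp only [A1, Finset.mem_filter, Finset.mem_univ, true_and] at hu
    obtain ⟨h1, h2, h3⟩ := hu
    have h4 : ((S u).erase γ).card ≤ 1 := by
      rw [Finset.card_erase_of_mem h2]; omega
    obtain ⟨i, hi1, hi2⟩ : ∃ i ∈ S u, S u = {γ, i} := by
      rcases Nat.lt_or_ge ((S u).erase γ).card 1 with h5 | h5
      · have h6 : (S u).erase γ = ∅ := Finset.card_eq_zero.1 (by omega)
        refine ⟨γ, h2, ?_⟩
        rw [← Finset.insert_erase h2, h6]
        simp
      · obtain ⟨i, hi⟩ := Finset.card_eq_one.1 (le_antisymm h4 h5)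
        refine ⟨i, ?_, ?_⟩
        · have : i ∈ (S u).erase γ := by rw [hi]; simp
          exact Finset.mem_of_mem_erase this
        · rw [← Finset.insert_erase h2, hi]
    refine ⟨⟨c u, i⟩, ?_, ?_⟩
    · simp only [Finset.mem_sigma, Finset.mem_erase, Finset.mem_univ, and_true]
      refine ⟨h1, ?_⟩
      rintro rfl
      exact hnotmem u hi1
    · simp [hi2]
  have hA2 : A2.card ≤ (k - 1) ^ 2 := by
    rw [← card_pairs γ, ← Finset.card_image_of_injOn (hinjOn A2)]
    refine le_trans (Finset.card_le_card ?_) (Finset.card_image_le
      (f := fun x : (_ : Fin k) × Fin k => (x.1, ({x.2} : Finset (Fin k)))))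
    intro x hx
    rw [Finset.mem_image] at hx ⊢
    obtain ⟨u, hu, rfl⟩ := hx
    simp only [A2, Finset.mem_filter, Finset.mem_univ, true_and] at hu
    obtain ⟨h1, h2⟩ := hu
    obtain ⟨i, hi⟩ := Finset.card_eq_one.1 h2
    refine ⟨⟨c u, i⟩, ?_, ?_⟩
    · simp only [Finset.mem_sigma, Finset.mem_erase, Finset.mem_univ, and_true]
      refine ⟨h1, ?_⟩
      rintro rfl
      exact hnotmem u (by rw [hi]; simp)
    · simp [hi]
  -- first inequality
  have ineq1 : N.card + WC.card ≤ (k - 1) ^ 2 + T3.card := by
    have hsplit : N.card = T3.card + (N.filter (fun u => ¬ 3 ≤ (S u).card)).card :=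
      (Finset.card_filter_add_card_filter_not (s := N) (fun u => 3 ≤ (S u).card)).symm
    have hsub : (N.filter (fun u => ¬ 3 ≤ (S u).card)) ∪ WC ⊆ A1 := by
      intro u hu
      rw [Finset.mem_union] at hu
      simp only [A1, Finset.mem_filter, Finset.mem_univ, true_and]
      rcases hu with hu | hu
      · rw [Finset.mem_filter, hmemN] at hu
        refine ⟨fun h => hproper v u hu.1 h.symm, (hSmem u γ).2 ⟨v, hu.1.symm, rfl⟩, by omega⟩
      · simp only [WC, W, Finset.mem_filter, Finset.mem_univ, true_and] at hu
        obtain ⟨⟨l, hl1, hl2, hl3⟩, hd, -⟩ := hu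
        refine ⟨?_, (hSmem u γ).2 ⟨l, hl1, hl3⟩, ?_⟩
        · rw [← hl3]; exact hproper u l hl1
        · exact le_trans (hScard u) (by omega)
    have hdisj : Disjoint (N.filter (fun u => ¬ 3 ≤ (S u).card)) WC := by
      rw [Finset.disjoint_left]
      intro u hu hu'
      simp only [WC, Finset.mem_filter] at hu hu'
      exact hu'.2.2 hu.1
    have := Finset.card_le_card hsub
    rw [Finset.card_union_of_disjoint hdisj] at this
    omega
  -- second inequality
  have ineq2 : Lo.card + WD.card ≤ (k - 1) ^ 2 := by
    have hsub : Lo ∪ WD ⊆ A2 := by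
      intro u hu
      rw [Finset.mem_union] at hu
      simp only [A2, Finset.mem_filter, Finset.mem_univ, true_and]
      rcases hu with hu | hu
      · simp only [Lo, L, Finset.mem_filter, Finset.mem_univ, true_and] at hu
        refine ⟨hu.2, ?_⟩
        rw [hleafS u hu.1, Finset.card_singleton]
      · simp only [WD, W, Finset.mem_filter, Finset.mem_univ, true_and] at hu
        obtain ⟨⟨l, hl1, hl2, hl3⟩, hd, hN⟩ := hu
        refine ⟨?_, ?_⟩
        · rw [← hl3]; exact hproper u l hl1
        · have hvl : v ≠ l := by
            rintro rfl
            omega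
          have hsub2 : ({v, l} : Finset V) ⊆ T.neighborFinset u := by
            intro x hx
            rw [Finset.mem_insert, Finset.mem_singleton] at hx
            rw [SimpleGraph.mem_neighborFinset]
            rcases hx with rfl | rfl
            · exact ((hmemN u).1 hN).symm
            · exact hl1
          have heq : ({v, l} : Finset V) = T.neighborFinset u := by
            apply Finset.eq_of_subset_of_card_le hsub2
            rw [Finset.card_pair hvl]
            exact le_of_eq hd
          have : S u = {γ} := by
            simp only [S]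
            rw [← heq, Finset.image_insert, Finset.image_singleton, hl3, ← hγ]
            simp
          rw [this, Finset.card_singleton]
    have hdisj : Disjoint Lo WD := by
      rw [Finset.disjoint_left]
      intro u hu hu'
      simp only [Lo, L, WD, Finset.mem_filter, Finset.mem_univ, true_and] at hu hu'
      omega
    have := Finset.card_le_card hsub
    rw [Finset.card_union_of_disjoint hdisj] at this
    omega
  -- leaves of colour `γ`
  have ineq3 : Lg.card ≤ W.card := by
    refine Finset.card_le_card_of_injOn nb ?_ ?_
    · intro l hl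
      simp only [Lg, L, Finset.coe_filter, Finset.mem_filter, Finset.mem_univ, true_and,
        Set.mem_setOf_eq] at hl
      simp only [W, Finset.coe_filter, Finset.mem_univ, true_and, Set.mem_setOf_eq]
      exact ⟨l, (hnb l).symm, hl.1, hl.2⟩
    · intro l hl l' hl' h
      simp only [Lg, L, Finset.coe_filter, Finset.mem_filter, Finset.mem_univ, true_and,
        Set.mem_setOf_eq] at hl hl'
      refine hinj l l' (by rw [hl.2, hl'.2]) ?_
      rw [hleafS l hl.1, hleafS l' hl'.1, h]
  have ineq4 : W.card ≤ WC.card + WD.card + W3.card := by
    have hsub : W ⊆ WC ∪ WD ∪ W3 := by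
      intro w hw
      have hw' := hw
      simp only [W, Finset.mem_filter, Finset.mem_univ, true_and] at hw'
      obtain ⟨l, hl1, hl2, hl3⟩ := hw'
      have h1 := hdeg w
      have h2 : T.degree w ≠ 1 := hadjleaf l w hl1.symm hl2
      simp only [WC, WD, W3, Finset.mem_union, Finset.mem_filter, hw, true_and]
      by_cases h3 : T.degree w = 2
      · by_cases h4 : w ∈ N
        · left; right; exact ⟨h3, h4⟩
        · left; left; exact ⟨h3, h4⟩
      · right; omega
    refine le_trans (Finset.card_le_card hsub) ?_
    refine le_trans (Finset.card_union_le _ _) ?_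
    have := Finset.card_union_le WC WD
    omega
  have hLcard : L.card = Lg.card + Lo.card :=
    (Finset.card_filter_add_card_filter_not (s := L) (fun u => c u = γ)).symm
  -- handshake
  have ineq5 : T.degree v + T3.card + W3.card ≤ L.card := by
    have hpt : ∀ u : V, 2 + (if u = v then T.degree v - 2 else 0) +
        (if u ∈ T3 then 1 else 0) + (if u ∈ W3 then 1 else 0) ≤
        T.degree u + (if u ∈ L then 1 else 0) := by
      intro u
      by_cases huv : u = v
      · subst huv
        have h1 : u ∉ T3 := by
          simp [T3, N]
        have h2 : u ∉ W3 := by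
          intro h
          simp only [W3, W, Finset.mem_filter, Finset.mem_univ, true_and] at h
          obtain ⟨⟨l, hl1, hl2, hl3⟩, -⟩ := h
          exact hproper u l hl1 hl3.symm
        simp only [h1, h2, if_true, if_false]
        split_ifs <;> omega
      · simp only [huv, if_false]
        by_cases h1 : u ∈ T3
        · have h1' := h1
          simp only [T3, Finset.mem_filter, hmemN] at h1'
          by_cases h2 : u ∈ W3
          · have h2' := h2
            simp only [W3, W, Finset.mem_filter, Finset.mem_univ, true_and] at h2'
            obtain ⟨⟨l, hl1, hl2, hl3⟩, h3⟩ := h2'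
            have hvl : v ≠ l := by
              rintro rfl
              omega
            have himg : S u = ((T.neighborFinset u).erase l).image c := by
              ext i
              rw [hSmem, Finset.mem_image]
              constructor
              · rintro ⟨w, hw, rfl⟩
                by_cases hwl : w = l
                · refine ⟨v, ?_, ?_⟩
                  · rw [Finset.mem_erase, SimpleGraph.mem_neighborFinset]
                    exact ⟨hvl, h1'.1.symm⟩
                  · rw [hwl, hl3]
                · exact ⟨w, by rw [Finset.mem_erase, SimpleGraph.mem_neighborFinset]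
                               exact ⟨hwl, hw⟩, rfl⟩
              · rintro ⟨w, hw, rfl⟩
                rw [Finset.mem_erase, SimpleGraph.mem_neighborFinset] at hw
                exact ⟨w, hw.2, rfl⟩
            have hcd : (S u).card ≤ T.degree u - 1 := by
              rw [himg]
              refine le_trans Finset.card_image_le ?_
              rw [Finset.card_erase_of_mem (by simpa using hl1)]
              exact le_of_eq rfl
            have h5 := hdeg u
            simp only [h1, h2, if_true]
            have := h1'.2
            omega
          · have h5 := hScard u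
            have := h1'.2
            simp only [h1, h2, if_true, if_false]
            omega
        · by_cases h2 : u ∈ W3
          · have h2' := h2
            simp only [W3, Finset.mem_filter] at h2'
            simp only [h1, h2, if_true, if_false]
            have := h2'.2
            omega
          · simp only [h1, h2, if_false]
            have h5 := hdeg u
            by_cases h6 : T.degree u = 1
            · have : u ∈ L := by simp [L, h6]
              simp only [this, if_true]
              omega
            · omega
    have hsum := Finset.sum_le_sum (fun u (_ : u ∈ (univ : Finset V)) => hpt u)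
    simp only [Finset.sum_add_distrib, Finset.sum_const, Finset.card_univ, smul_eq_mul,
      Finset.sum_ite_eq', Finset.mem_univ, if_true, Finset.sum_boole, Nat.cast_id] at hsum
    have e1 : (univ.filter (fun u => u ∈ T3)).card = T3.card := by
      congr 1; ext u; simp
    have e2 : (univ.filter (fun u => u ∈ W3)).card = W3.card := by
      congr 1; ext u; simp
    have e3 : (univ.filter (fun u => u ∈ L)).card = L.card := by
      congr 1; ext u; simp
    rw [e1, e2, e3, T.sum_degrees_eq_twice_card_edges] at hsum
    have h7 := hT.card_edgeFinset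
    omega
  have hNcard : N.card = T.degree v := rfl
  omega

/-- Every tree with neighbor-locating chromatic number `k ≥ 2` has maximum degree at most
`(k - 1)^2`. -/
theorem result {V : Type*} [Fintype V] (T : SimpleGraph V) [DecidableRel T.Adj] (hT : T.IsTree)
    (k : ℕ) (hk : 2 ≤ k) (hchi : nlChromaticNumber T = k) : T.maxDegree ≤ (k - 1) ^ 2 := by
  have hne : {k : ℕ | ∃ c : V → Fin k, IsNLColouring T c}.Nonempty := by
    by_contra hcon
    rw [Set.not_nonempty_iff_eq_empty] at hcon
    unfold nlChromaticNumber at hchi
    rw [hcon, Nat.sInf_empty] at hchi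
    omega
  have hmem := Nat.sInf_mem hne
  change nlChromaticNumber T ∈ _ at hmem
  rw [hchi] at hmem
  obtain ⟨c, hc⟩ := hmem
  refine SimpleGraph.maxDegree_le_of_forall_degree_le _ _ fun v => ?_
  by_cases hv : 2 ≤ T.degree v
  · exact main T hT c hc v hv
  · have : 1 ≤ (k - 1) ^ 2 := Nat.one_le_pow _ _ (by omega)
    omega

end Pool.Agent.Results.MP_16ddc9_co.TreeMaxDegree
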